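import Pool.Agent.Helper59.TD.Data7

namespace Pool.Agent.Helper59.TD

theorem chk_15 : allc ((reps7.drop 60).take 4) = true := by decide +kernel

theorem chk_16 : allc ((reps7.drop 64).take 4) = true := by decide +kernel

theorem chk_17 : allc ((reps7.drop 68).take 4) = true := by decide +kernel

theorem chk_18 : allc ((reps7.drop 72).take 4) = true := by decide +kernel

theorem chk_19 : allc ((reps7.drop 76).take 4) = true := by decide +kernel

theorem chk_20 : allc ((reps7.drop 80).take 4) = true := by decide +kernel

theorem chk_21 : allc ((reps7.drop 84).take 4) = true := by decide +kernel

theorem chk_22 : allc ((reps7.drop 88).take 4) = true := by decide +kernel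

theorem chk_23 : allc ((reps7.drop 92).take 4) = true := by decide +kernel

theorem chk_24 : allc ((reps7.drop 96).take 4) = true := by decide +kernel

theorem chk_25 : allc ((reps7.drop 100).take 4) = true := by decide +kernel

theorem chk_26 : allc ((reps7.drop 104).take 4) = true := by decide +kernel

theorem chk_27 : allc ((reps7.drop 108).take 4) = true := by decide +kernel

theorem chk_28 : allc ((reps7.drop 112).take 4) = true := by decide +kernel

theorem chk_29 : allc ((reps7.drop 116).take 4) = true := by decide +kernel

end Pool.Agent.Helper59.TD
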