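import Pool.Agent.Helper59.TD.Data7

namespace Pool.Agent.Helper59.TD

theorem chk_30 : allc ((reps7.drop 120).take 4) = true := by decide +kernel

theorem chk_31 : allc ((reps7.drop 124).take 4) = true := by decide +kernel

theorem chk_32 : allc ((reps7.drop 128).take 4) = true := by decide +kernel

theorem chk_33 : allc ((reps7.drop 132).take 4) = true := by decide +kernel

theorem chk_34 : allc ((reps7.drop 136).take 4) = true := by decide +kernel

theorem chk_35 : allc ((reps7.drop 140).take 4) = true := by decide +kernel

theorem chk_36 : allc ((reps7.drop 144).take 4) = true := by decide +kernel

theorem chk_37 : allc ((reps7.drop 148).take 4) = true := by decide +kernel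

theorem chk_38 : allc ((reps7.drop 152).take 4) = true := by decide +kernel

theorem chk_39 : allc ((reps7.drop 156).take 4) = true := by decide +kernel

theorem chk_40 : allc ((reps7.drop 160).take 4) = true := by decide +kernel

theorem chk_41 : allc ((reps7.drop 164).take 4) = true := by decide +kernel

theorem chk_42 : allc ((reps7.drop 168).take 4) = true := by decide +kernel

theorem chk_43 : allc ((reps7.drop 172).take 4) = true := by decide +kernel

theorem chk_44 : allc ((reps7.drop 176).take 4) = true := by decide +kernel

end Pool.Agent.Helper59.TD
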