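import Pool.Agent.Helper59.TD.Data7

namespace Pool.Agent.Helper59.TD

theorem chk_45 : allc ((reps7.drop 180).take 4) = true := by decide +kernel

theorem chk_46 : allc ((reps7.drop 184).take 4) = true := by decide +kernel

theorem chk_47 : allc ((reps7.drop 188).take 4) = true := by decide +kernel

theorem chk_48 : allc ((reps7.drop 192).take 4) = true := by decide +kernel

theorem chk_49 : allc ((reps7.drop 196).take 4) = true := by decide +kernel

theorem chk_50 : allc ((reps7.drop 200).take 4) = true := by decide +kernel

theorem chk_51 : allc ((reps7.drop 204).take 4) = true := by decide +kernel

theorem chk_52 : allc ((reps7.drop 208).take 4) = true := by decide +kernel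

theorem chk_53 : allc ((reps7.drop 212).take 4) = true := by decide +kernel

theorem chk_54 : allc ((reps7.drop 216).take 4) = true := by decide +kernel

theorem chk_55 : allc ((reps7.drop 220).take 4) = true := by decide +kernel

theorem chk_56 : allc ((reps7.drop 224).take 4) = true := by decide +kernel

theorem chk_57 : allc ((reps7.drop 228).take 4) = true := by decide +kernel

theorem chk_58 : allc ((reps7.drop 232).take 4) = true := by decide +kernel

theorem chk_59 : allc ((reps7.drop 236).take 4) = true := by decide +kernel

end Pool.Agent.Helper59.TD
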