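import Pool.Agent.Helper59.TD.Data7

namespace Pool.Agent.Helper59.TD

theorem chk_60 : allc ((reps7.drop 240).take 4) = true := by decide +kernel

theorem chk_61 : allc ((reps7.drop 244).take 4) = true := by decide +kernel

theorem chk_62 : allc ((reps7.drop 248).take 4) = true := by decide +kernel

theorem chk_63 : allc ((reps7.drop 252).take 4) = true := by decide +kernel

theorem chk_64 : allc ((reps7.drop 256).take 4) = true := by decide +kernel

theorem chk_65 : allc ((reps7.drop 260).take 4) = true := by decide +kernel

theorem chk_66 : allc ((reps7.drop 264).take 4) = true := by decide +kernel

theorem chk_67 : allc ((reps7.drop 268).take 4) = true := by decide +kernel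

theorem chk_68 : allc ((reps7.drop 272).take 4) = true := by decide +kernel

theorem chk_69 : allc ((reps7.drop 276).take 4) = true := by decide +kernel

theorem chk_70 : allc ((reps7.drop 280).take 4) = true := by decide +kernel

theorem chk_71 : allc ((reps7.drop 284).take 4) = true := by decide +kernel

theorem chk_72 : allc ((reps7.drop 288).take 4) = true := by decide +kernel

theorem chk_73 : allc ((reps7.drop 292).take 4) = true := by decide +kernel

theorem chk_74 : allc ((reps7.drop 296).take 4) = true := by decide +kernel

end Pool.Agent.Helper59.TD
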