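import Pool.Agent.Helper59.TD.Data7

namespace Pool.Agent.Helper59.TD

theorem chk_75 : allc ((reps7.drop 300).take 4) = true := by decide +kernel

theorem chk_76 : allc ((reps7.drop 304).take 4) = true := by decide +kernel

theorem chk_77 : allc ((reps7.drop 308).take 4) = true := by decide +kernel

theorem chk_78 : allc ((reps7.drop 312).take 4) = true := by decide +kernel

theorem chk_79 : allc ((reps7.drop 316).take 4) = true := by decide +kernel

theorem chk_80 : allc ((reps7.drop 320).take 4) = true := by decide +kernel

theorem chk_81 : allc ((reps7.drop 324).take 4) = true := by decide +kernel

theorem chk_82 : allc ((reps7.drop 328).take 4) = true := by decide +kernel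

theorem chk_83 : allc ((reps7.drop 332).take 4) = true := by decide +kernel

theorem chk_84 : allc ((reps7.drop 336).take 4) = true := by decide +kernel

theorem chk_85 : allc ((reps7.drop 340).take 4) = true := by decide +kernel

theorem chk_86 : allc ((reps7.drop 344).take 4) = true := by decide +kernel

theorem chk_87 : allc ((reps7.drop 348).take 4) = true := by decide +kernel

theorem chk_88 : allc ((reps7.drop 352).take 4) = true := by decide +kernel

theorem chk_89 : allc ((reps7.drop 356).take 4) = true := by decide +kernel

end Pool.Agent.Helper59.TD
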