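import Pool.Agent.Helper59.TD.Data7

namespace Pool.Agent.Helper59.TD

theorem chk_90 : allc ((reps7.drop 360).take 4) = true := by decide +kernel

theorem chk_91 : allc ((reps7.drop 364).take 4) = true := by decide +kernel

theorem chk_92 : allc ((reps7.drop 368).take 4) = true := by decide +kernel

theorem chk_93 : allc ((reps7.drop 372).take 4) = true := by decide +kernel

theorem chk_94 : allc ((reps7.drop 376).take 4) = true := by decide +kernel

theorem chk_95 : allc ((reps7.drop 380).take 4) = true := by decide +kernel

theorem chk_96 : allc ((reps7.drop 384).take 4) = true := by decide +kernel

theorem chk_97 : allc ((reps7.drop 388).take 4) = true := by decide +kernel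

theorem chk_98 : allc ((reps7.drop 392).take 4) = true := by decide +kernel

theorem chk_99 : allc ((reps7.drop 396).take 4) = true := by decide +kernel

theorem chk_100 : allc ((reps7.drop 400).take 4) = true := by decide +kernel

theorem chk_101 : allc ((reps7.drop 404).take 4) = true := by decide +kernel

theorem chk_102 : allc ((reps7.drop 408).take 4) = true := by decide +kernel

theorem chk_103 : allc ((reps7.drop 412).take 4) = true := by decide +kernel

theorem chk_104 : allc ((reps7.drop 416).take 4) = true := by decide +kernel

end Pool.Agent.Helper59.TD
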