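import Pool.Agent.Helper59.TD.Data7

namespace Pool.Agent.Helper59.TD

theorem chk_105 : allc ((reps7.drop 420).take 4) = true := by decide +kernel

theorem chk_106 : allc ((reps7.drop 424).take 4) = true := by decide +kernel

theorem chk_107 : allc ((reps7.drop 428).take 4) = true := by decide +kernel

theorem chk_108 : allc ((reps7.drop 432).take 4) = true := by decide +kernel

theorem chk_109 : allc ((reps7.drop 436).take 4) = true := by decide +kernel

theorem chk_110 : allc ((reps7.drop 440).take 4) = true := by decide +kernel

theorem chk_111 : allc ((reps7.drop 444).take 4) = true := by decide +kernel

theorem chk_112 : allc ((reps7.drop 448).take 4) = true := by decide +kernel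

theorem chk_113 : allc ((reps7.drop 452).take 4) = true := by decide +kernel

end Pool.Agent.Helper59.TD
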