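import Pool.Agent.Helper59.TD.Chk.C0
import Pool.Agent.Helper59.TD.Chk.C1
import Pool.Agent.Helper59.TD.Chk.C2
import Pool.Agent.Helper59.TD.Chk.C3
import Pool.Agent.Helper59.TD.Chk.C4
import Pool.Agent.Helper59.TD.Chk.C5
import Pool.Agent.Helper59.TD.Chk.C6
import Pool.Agent.Helper59.TD.Chk.C7

namespace Pool.Agent.Helper59.TD

theorem allc_iff (l : List ℕ) : allc l = true ↔ ∀ T ∈ l, chk T = true := by
  induction l with
  | nil => simp [allc]
  | cons x xs ih =>
    simp only [allc, List.mem_cons, forall_eq_or_imp]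
    cases h : chk x
    · simp
    · simp [ih]

theorem reps7_length : reps7.length = 456 := by decide +kernel

theorem mem_chunk {T : ℕ} (hT : T ∈ reps7) : ∃ c < 114, T ∈ (reps7.drop (4 * c)).take 4 := by
  obtain ⟨i, hi, rfl⟩ := List.mem_iff_getElem.1 hT
  have hi' : i < 456 := by rw [reps7_length] at hi; exact hi
  refine ⟨i / 4, by omega, ?_⟩
  rw [List.mem_iff_getElem]
  refine ⟨i % 4, ?_, ?_⟩
  · rw [List.length_take, List.length_drop, reps7_length]
    omega
  · rw [List.getElem_take, List.getElem_drop]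
    congr 1
    omega

theorem chk_all : ∀ T ∈ reps7, chk T = true := by
  intro T hT
  obtain ⟨c, hc, h⟩ := mem_chunk hT
  interval_cases c
  · exact (allc_iff _).1 chk_0 T h
  · exact (allc_iff _).1 chk_1 T h
  · exact (allc_iff _).1 chk_2 T h
  · exact (allc_iff _).1 chk_3 T h
  · exact (allc_iff _).1 chk_4 T h
  · exact (allc_iff _).1 chk_5 T h
  · exact (allc_iff _).1 chk_6 T h
  · exact (allc_iff _).1 chk_7 T h
  · exact (allc_iff _).1 chk_8 T h
  · exact (allc_iff _).1 chk_9 T h
  · exact (allc_iff _).1 chk_10 T h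
  · exact (allc_iff _).1 chk_11 T h
  · exact (allc_iff _).1 chk_12 T h
  · exact (allc_iff _).1 chk_13 T h
  · exact (allc_iff _).1 chk_14 T h
  · exact (allc_iff _).1 chk_15 T h
  · exact (allc_iff _).1 chk_16 T h
  · exact (allc_iff _).1 chk_17 T h
  · exact (allc_iff _).1 chk_18 T h
  · exact (allc_iff _).1 chk_19 T h
  · exact (allc_iff _).1 chk_20 T h
  · exact (allc_iff _).1 chk_21 T h
  · exact (allc_iff _).1 chk_22 T h
  · exact (allc_iff _).1 chk_23 T h
  · exact (allc_iff _).1 chk_24 T h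
  · exact (allc_iff _).1 chk_25 T h
  · exact (allc_iff _).1 chk_26 T h
  · exact (allc_iff _).1 chk_27 T h
  · exact (allc_iff _).1 chk_28 T h
  · exact (allc_iff _).1 chk_29 T h
  · exact (allc_iff _).1 chk_30 T h
  · exact (allc_iff _).1 chk_31 T h
  · exact (allc_iff _).1 chk_32 T h
  · exact (allc_iff _).1 chk_33 T h
  · exact (allc_iff _).1 chk_34 T h
  · exact (allc_iff _).1 chk_35 T h
  · exact (allc_iff _).1 chk_36 T h
  · exact (allc_iff _).1 chk_37 T h
  · exact (allc_iff _).1 chk_38 T h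
  · exact (allc_iff _).1 chk_39 T h
  · exact (allc_iff _).1 chk_40 T h
  · exact (allc_iff _).1 chk_41 T h
  · exact (allc_iff _).1 chk_42 T h
  · exact (allc_iff _).1 chk_43 T h
  · exact (allc_iff _).1 chk_44 T h
  · exact (allc_iff _).1 chk_45 T h
  · exact (allc_iff _).1 chk_46 T h
  · exact (allc_iff _).1 chk_47 T h
  · exact (allc_iff _).1 chk_48 T h
  · exact (allc_iff _).1 chk_49 T h
  · exact (allc_iff _).1 chk_50 T h
  · exact (allc_iff _).1 chk_51 T h
  · exact (allc_iff _).1 chk_52 T h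
  · exact (allc_iff _).1 chk_53 T h
  · exact (allc_iff _).1 chk_54 T h
  · exact (allc_iff _).1 chk_55 T h
  · exact (allc_iff _).1 chk_56 T h
  · exact (allc_iff _).1 chk_57 T h
  · exact (allc_iff _).1 chk_58 T h
  · exact (allc_iff _).1 chk_59 T h
  · exact (allc_iff _).1 chk_60 T h
  · exact (allc_iff _).1 chk_61 T h
  · exact (allc_iff _).1 chk_62 T h
  · exact (allc_iff _).1 chk_63 T h
  · exact (allc_iff _).1 chk_64 T h
  · exact (allc_iff _).1 chk_65 T h
  · exact (allc_iff _).1 chk_66 T h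
  · exact (allc_iff _).1 chk_67 T h
  · exact (allc_iff _).1 chk_68 T h
  · exact (allc_iff _).1 chk_69 T h
  · exact (allc_iff _).1 chk_70 T h
  · exact (allc_iff _).1 chk_71 T h
  · exact (allc_iff _).1 chk_72 T h
  · exact (allc_iff _).1 chk_73 T h
  · exact (allc_iff _).1 chk_74 T h
  · exact (allc_iff _).1 chk_75 T h
  · exact (allc_iff _).1 chk_76 T h
  · exact (allc_iff _).1 chk_77 T h
  · exact (allc_iff _).1 chk_78 T h
  · exact (allc_iff _).1 chk_79 T h
  · exact (allc_iff _).1 chk_80 T h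
  · exact (allc_iff _).1 chk_81 T h
  · exact (allc_iff _).1 chk_82 T h
  · exact (allc_iff _).1 chk_83 T h
  · exact (allc_iff _).1 chk_84 T h
  · exact (allc_iff _).1 chk_85 T h
  · exact (allc_iff _).1 chk_86 T h
  · exact (allc_iff _).1 chk_87 T h
  · exact (allc_iff _).1 chk_88 T h
  · exact (allc_iff _).1 chk_89 T h
  · exact (allc_iff _).1 chk_90 T h
  · exact (allc_iff _).1 chk_91 T h
  · exact (allc_iff _).1 chk_92 T h
  · exact (allc_iff _).1 chk_93 T h
  · exact (allc_iff _).1 chk_94 T h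
  · exact (allc_iff _).1 chk_95 T h
  · exact (allc_iff _).1 chk_96 T h
  · exact (allc_iff _).1 chk_97 T h
  · exact (allc_iff _).1 chk_98 T h
  · exact (allc_iff _).1 chk_99 T h
  · exact (allc_iff _).1 chk_100 T h
  · exact (allc_iff _).1 chk_101 T h
  · exact (allc_iff _).1 chk_102 T h
  · exact (allc_iff _).1 chk_103 T h
  · exact (allc_iff _).1 chk_104 T h
  · exact (allc_iff _).1 chk_105 T h
  · exact (allc_iff _).1 chk_106 T h
  · exact (allc_iff _).1 chk_107 T h
  · exact (allc_iff _).1 chk_108 T h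
  · exact (allc_iff _).1 chk_109 T h
  · exact (allc_iff _).1 chk_110 T h
  · exact (allc_iff _).1 chk_111 T h
  · exact (allc_iff _).1 chk_112 T h
  · exact (allc_iff _).1 chk_113 T h

end Pool.Agent.Helper59.TD
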