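import Pool.Agent.Helper59.TD.Data7

namespace Pool.Agent.Helper59.TD

theorem chk_0 : allc ((reps7.drop 0).take 4) = true := by decide +kernel

theorem chk_1 : allc ((reps7.drop 4).take 4) = true := by decide +kernel

theorem chk_2 : allc ((reps7.drop 8).take 4) = true := by decide +kernel

theorem chk_3 : allc ((reps7.drop 12).take 4) = true := by decide +kernel

theorem chk_4 : allc ((reps7.drop 16).take 4) = true := by decide +kernel

theorem chk_5 : allc ((reps7.drop 20).take 4) = true := by decide +kernel

theorem chk_6 : allc ((reps7.drop 24).take 4) = true := by decide +kernel

theorem chk_7 : allc ((reps7.drop 28).take 4) = true := by decide +kernel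

theorem chk_8 : allc ((reps7.drop 32).take 4) = true := by decide +kernel

theorem chk_9 : allc ((reps7.drop 36).take 4) = true := by decide +kernel

theorem chk_10 : allc ((reps7.drop 40).take 4) = true := by decide +kernel

theorem chk_11 : allc ((reps7.drop 44).take 4) = true := by decide +kernel

theorem chk_12 : allc ((reps7.drop 48).take 4) = true := by decide +kernel

theorem chk_13 : allc ((reps7.drop 52).take 4) = true := by decide +kernel

theorem chk_14 : allc ((reps7.drop 56).take 4) = true := by decide +kernel

end Pool.Agent.Helper59.TD
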